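import Pool.Agent.H47.RS.Defs
import Pool.Agent.H47.PS.Defs
import Pool.Agent.H47.SQ.Stmt2
import Pool.Agent.H47.SQ.Stmt3

/-!
Search in random and in planted k-CNFs (MP_c62aed_lc): the copies of the definitions.
-/

set_option autoImplicit false

namespace Pool.Agent.H47.RS

open Finset

variable {n k m : ℕ}

/-! ### Derivations -/

/-- a rule -/
def cvR : RS.Rule n → PS.Rule n
  | Rule.ax => PS.Rule.ax
  | Rule.weak j => PS.Rule.weak j
  | Rule.res x j l => PS.Rule.res x j l

theorem path_cv (rule : ℕ → RS.Rule n) (r : ℕ) :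
    ∀ (i : ℕ) (l : List (Fin n)), PS.Path (fun i => cvR (rule i)) r i l → RS.Path rule r i l := by
  intro i l h
  induction h with
  | refl => exact Path.refl
  | @weak i j l _ h ih =>
    refine Path.weak ih ?_
    have h' : cvR (rule i) = PS.Rule.weak j := h
    rcases hr : rule i with _ | j' | ⟨x, j', l'⟩
    · rw [hr] at h'
      cases h'
    · rw [hr] at h'
      cases h'
      rfl
    · rw [hr] at h'
      cases h'
  | @left i j k x l _ h ih =>
    have h' : cvR (rule i) = PS.Rule.res x j k := h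
    rcases hr : rule i with _ | j' | ⟨x', j', l'⟩
    · rw [hr] at h'
      cases h'
    · rw [hr] at h'
      cases h'
    · rw [hr] at h'
      cases h'
      exact Path.left ih hr
  | @right i j k x l _ h ih =>
    have h' : cvR (rule i) = PS.Rule.res x j k := h
    rcases hr : rule i with _ | j' | ⟨x', j', l'⟩
    · rw [hr] at h'
      cases h'
    · rw [hr] at h'
      cases h'
    · rw [hr] at h'
      cases h'
      exact Path.right ih hr

theorem excl_ps (F : RS.Fml n k m) (K s : ℕ) (hk : 1 ≤ k) (hK : 1 ≤ K) (ρ : ℝ)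
    (L : Finset (Fin n × Bool)) (h : RS.Excl F (n / k) s (k / K) ρ L) : PS.Excl F K ρ s L := by
  obtain ⟨S, r, line, rule, hS, hr, hc, hL, hP⟩ := h
  refine ⟨S, r, line, fun i => cvR (rule i), hS, hr, ?_, hL, ?_⟩
  · intro i hi
    have h1 := hc i hi
    show PS.Correct F line i (cvR (rule i))
    rcases hr' : rule i with _ | j | ⟨x, j, l⟩
    · rw [hr'] at h1
      obtain ⟨C, hC, hz⟩ := h1
      refine ⟨C, ?_, hz⟩
      calc k * C.card ≤ k * (n / k) := Nat.mul_le_mul_left _ hC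
        _ ≤ n := Nat.mul_div_le n k
    · rw [hr'] at h1
      exact h1
    · rw [hr'] at h1
      exact h1
  · intro i l hl
    have h1 := hP i l (path_cv rule r i l hl)
    refine le_trans (le_of_eq ?_) h1
    congr 2
    ext v
    rw [mem_filter, mem_filter]
    have hK0 : (0 : ℝ) < K := by exact_mod_cast hK
    refine and_congr_right fun _ => ?_
    rw [div_lt_iff₀ hK0]
    constructor
    · intro h
      have h2 : (k : ℝ) < K * l.count v := by exact_mod_cast h
      linarith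
    · intro h
      have h2 : (k : ℝ) < K * l.count v := by linarith
      exact_mod_cast h2

theorem excl_sq (F : RS.Fml n k m) (a s : ℕ) (R ρ : ℝ) (L : Finset (Fin n × Bool))
    (h : RS.Excl F a s R ρ L) : SQ.Refuted F a s L := by
  obtain ⟨S, r, line, rule, hS, hr, hc, hL, _⟩ := h
  refine ⟨S, r, line, hS, hr, ?_, hL⟩
  intro i hi
  have h1 := hc i hi
  rcases hr' : rule i with _ | j | ⟨x, j, l⟩
  · rw [hr'] at h1
    exact Or.inl h1
  · rw [hr'] at h1
    exact Or.inr (Or.inl ⟨j, h1⟩)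
  · rw [hr'] at h1
    exact Or.inr (Or.inr ⟨x, j, l, h1⟩)

theorem sq_excl (F : RS.Fml n k m) (L : Finset (Fin n × Bool))
    (h : SQ.Refuted F 1 1 L) : RS.Excl F 1 1 0 0 L := by
  obtain ⟨S, r, line, hS, hr, hc, hL⟩ := h
  have hr0 : r = 0 := by omega
  subst hr0
  refine ⟨S, 0, line, fun _ => Rule.ax, hS, hr, ?_, hL, ?_⟩
  · intro i hi
    have hi0 : i = 0 := by omega
    subst hi0
    rcases hc 0 hi with h1 | ⟨j, hj, _⟩ | ⟨x, j, l, hj, _⟩
    · exact h1
    · omega
    · omega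
  · intro i l hl
    have hl0 : l = [] := by
      induction hl with
      | refl => rfl
      | weak _ h _ => cases h
      | left _ h _ => cases h
      | right _ h _ => cases h
    subst hl0
    simp

/-! ### Trees -/

/-- a tree -/
def cvS : RS.Tree n → SQ.Tree n
  | Tree.leaf => SQ.Tree.leaf
  | Tree.node v f => SQ.Tree.node v fun a b => cvS (f a b)

/-- a tree -/
def cvT : RS.Tree n → PS.Tree n
  | Tree.leaf => PS.Tree.leaf
  | Tree.node v f => PS.Tree.node v fun a b => cvT (f a b)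

theorem find_sq (F : RS.Fml n k m) (Ex : Finset (Fin n × Bool) → Prop)
    (ω : Finset (Fin n × Bool) → Bool) (T : RS.Tree n) :
    ∀ L, RS.Find F Ex ω T L ↔ SQ.Find F Ex ω (cvS T) L := by
  induction T with
  | leaf => exact fun L => Iff.rfl
  | node v f ih =>
    intro L
    unfold RS.Find cvS SQ.Find
    refine or_congr ?_ (and_congr_right fun _ => ?_)
    · exact exists_congr fun b => and_congr_right fun _ => ih b b L
    · exact exists_congr fun b => and_congr_right fun _ => ih (ω L) b _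

theorem find_ps (F : RS.Fml n k m) (Ex : Finset (Fin n × Bool) → Prop)
    (ω : Finset (Fin n × Bool) → Bool) (T : RS.Tree n) :
    ∀ L, RS.Find F Ex ω T L ↔ PS.Find F Ex ω (cvT T) L := by
  induction T with
  | leaf => exact fun L => Iff.rfl
  | node v f ih =>
    intro L
    unfold RS.Find cvT PS.Find
    refine or_congr ?_ (and_congr_right fun _ => ?_)
    · exact exists_congr fun b => and_congr_right fun _ => ih b b L
    · exact exists_congr fun b => and_congr_right fun _ => ih (ω L) b _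

theorem find_mono (F : RS.Fml n k m) (Ex Ex' : Finset (Fin n × Bool) → Prop)
    (hE : ∀ L, Ex L → Ex' L) (ω : Finset (Fin n × Bool) → Bool) (T : RS.Tree n) :
    ∀ L, RS.Find F Ex ω T L → RS.Find F Ex' ω T L := by
  induction T with
  | leaf => exact fun L h => h
  | node v f ih =>
    intro L h
    rcases h with ⟨b, hb, h⟩ | ⟨hn, b, hb, h⟩
    · exact Or.inl ⟨b, hb, ih b b L h⟩
    · exact Or.inr ⟨hn, b, hb.imp id (hE _), ih (ω L) b _ h⟩

theorem chain_cv (l : List (Fin n)) : cvS (RS.chain l) = SQ.chain l := by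
  induction l with
  | nil => rfl
  | cons v l ih =>
    show SQ.Tree.node v (fun _ _ => cvS (RS.chain l)) = SQ.Tree.node v fun _ _ => SQ.chain l
    rw [ih]

theorem card_mono {α : Type} [Finite α] {p q : α → Prop} (h : ∀ x, p x → q x) :
    Nat.card {x // p x} ≤ Nat.card {x // q x} :=
  Nat.card_le_card_of_injective (fun x : {x // p x} => (⟨x.1, h x.1 x.2⟩ : {x // q x}))
    fun _ _ hxy => Subtype.ext (congrArg (fun z : {x // q x} => z.1) hxy)

theorem success_mono (F : RS.Fml n k m) (Ex Ex' : Finset (Fin n × Bool) → Prop)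
    (hE : ∀ L, Ex L → Ex' L) (T : RS.Tree n) : success F Ex T ≤ success F Ex' T := by
  unfold success
  have h1 : Nat.card {ω : Finset (Fin n × Bool) → Bool // Find F Ex ω T ∅} ≤
      Nat.card {ω : Finset (Fin n × Bool) → Bool // Find F Ex' ω T ∅} :=
    card_mono fun ω h => find_mono F Ex Ex' hE ω T ∅ h
  gcongr

theorem success_sq (F : RS.Fml n k m) (a s : ℕ) (T : RS.Tree n) :
    success F (SQ.Refuted F a s) T = SQ.success F a s (cvS T) := by
  unfold success SQ.success
  simp only [find_sq]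

theorem success_ps (F : RS.Fml n k m) (Ex : Finset (Fin n × Bool) → Prop) (T : RS.Tree n) :
    success F Ex T = (Nat.card {ω : Finset (Fin n × Bool) → Bool // PS.Find F Ex ω (cvT T) ∅} : ℝ) /
      Nat.card (Finset (Fin n × Bool) → Bool) := by
  unfold success
  simp only [find_ps]

/-! ### Protocols -/

/-- a protocol -/
def cvP : RS.Prot n k m → PS.Prot n k m
  | Prot.leaf => PS.Prot.leaf
  | Prot.read c f => PS.Prot.read c fun x => cvP (f x)
  | Prot.node v a f => PS.Prot.node v a fun b => cvP (f b)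

theorem reads_cv (P : RS.Prot n k m) : ∀ q, RS.Reads P q → PS.Reads (cvP P) q := by
  induction P with
  | leaf => exact fun q h => h
  | read c f ih =>
    intro q h
    exact ⟨h.1, fun x => ih x _ (h.2 x)⟩
  | node v a f ih =>
    intro q h
    exact fun b => ih b q (h b)

theorem findP_cv (F : RS.Fml n k m) (Ex Ex' : Finset (Fin n × Bool) → Prop)
    (hE : ∀ L, Ex L → Ex' L) (P : RS.Prot n k m) :
    ∀ L, RS.FindP F Ex P L → PS.FindP F Ex' (cvP P) L := by
  induction P with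
  | leaf => exact fun L h => h
  | read c f ih =>
    intro L
    exact ih (fun i => (F c i).2) L
  | node v a f ih =>
    intro L
    rintro ⟨b, h1, h2, h3⟩
    exact ⟨b, h1, h2.imp id (Or.imp id (hE _)), ih b _ h3⟩

theorem run_cv (F : RS.Fml n k m) (pol : RS.Policy n m) (t : ℕ) :
    ∀ (h : List (Fin n → Bool)) (y : Fin n → Bool), RS.run F pol t h y = PS.run F pol t h y := by
  classical
  induction t with
  | zero =>
    intro h y
    rfl
  | succ t ih =>
    intro h y
    unfold RS.run PS.run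
    by_cases hs : RS.Sat F y
    · rw [if_pos hs, if_pos (show PS.Sat F y from hs)]
    · rw [if_neg hs, if_neg (show ¬ PS.Sat F y from hs)]
      rcases pol (y :: h) with _ | q
      · simp only [ih]
      · simp only [ih]
        rfl

theorem local_cv (ε Γ : ℝ) (F : RS.Fml n k m) (h : PS.Local ε Γ F) : RS.Local ε Γ F := by
  intro pol hpol t
  have h1 := h pol hpol t
  simp only [run_cv]
  exact h1

theorem drunken_cv (ε : ℝ) (K : ℕ) (hk : 1 ≤ k) (hK : 1 ≤ K) (F : RS.Fml n k m)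
    (h : PS.Drunken ε K F) : RS.Drunken ε K F := by
  intro ρ s hρ hs T
  have h1 := h ρ s hρ hs (cvT T)
  refine (success_mono F _ _ (excl_ps F K s hk hK ρ) T).trans ?_
  rw [success_ps]
  have h2 : 0 < Nat.card (Finset (Fin n × Bool) → Bool) := Nat.card_pos
  rw [div_le_iff₀ (by exact_mod_cast h2)]
  exact h1

theorem myopic_cv (ε : ℝ) (K : ℕ) (hk : 1 ≤ k) (hK : 1 ≤ K) (G : Set (RS.Fml n k m))
    (h : PS.Myopic ε K G) : RS.Myopic ε K G := by
  intro ρ s q hρ hs P hP
  obtain ⟨h1, h2⟩ := h ρ s q hρ hs (fun g => cvP (P g)) (fun g => reads_cv _ _ (hP g))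
  have hp : (0 : ℝ) ≤ (1 - (1 / 2 : ℝ) ^ k) ^ q := by
    have : (0 : ℝ) ≤ 1 - (1 / 2 : ℝ) ^ k := by
      have := pow_le_one₀ (n := k) (show (0 : ℝ) ≤ 1 / 2 by norm_num) (by norm_num)
      linarith
    positivity
  constructor
  · refine le_trans (mul_le_mul_of_nonneg_right ?_ hp) h1
    have h3 : Nat.card {F : RS.Fml n k m // RS.Dist F ∧ F ∈ G ∧
        RS.FindP F (RS.Excl F (n / k) s (k / K) ρ) (P (RS.vars F)) ∅} ≤
        Nat.card {F : PS.Fml n k m // PS.Dist F ∧ F ∈ G ∧
        PS.FindP F (PS.Excl F K ρ s) (cvP (P (PS.vars F))) ∅} :=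
      card_mono fun F hF => ⟨hF.1, hF.2.1,
        findP_cv F _ _ (excl_ps F K s hk hK ρ) _ _ hF.2.2⟩
    exact_mod_cast h3
  · refine le_trans (mul_le_mul_of_nonneg_right ?_ hp) h2
    have h3 : Nat.card {p : RS.Fml n k m × (Fin n → Bool) // RS.Dist p.1 ∧ RS.Sat p.1 p.2 ∧
        p.1 ∈ G ∧ RS.FindP p.1 (RS.Excl p.1 (n / k) s (k / K) ρ) (P (RS.vars p.1)) ∅} ≤
        Nat.card {p : PS.Fml n k m × (Fin n → Bool) // PS.Dist p.1 ∧ PS.Sat p.1 p.2 ∧
        p.1 ∈ G ∧ PS.FindP p.1 (PS.Excl p.1 K ρ s) (cvP (P (PS.vars p.1))) ∅} :=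
      card_mono fun p hF => ⟨hF.1, hF.2.1, hF.2.2.1,
        findP_cv p.1 _ _ (excl_ps p.1 K s hk hK ρ) _ _ hF.2.2.2⟩
    exact_mod_cast h3

theorem upper_cv (h : SQ.Upper) : RS.Upper := by
  obtain ⟨C, hC⟩ := h
  refine ⟨C, fun k n m hk hkn => ?_⟩
  obtain ⟨G, hG, hF⟩ := hC k n m hk hkn
  refine ⟨G, hG, fun F hFG a s T hs ha => ?_⟩
  refine (success_mono F _ _ (excl_sq F a s 0 1) T).trans ?_
  rw [success_sq]
  exact hF F hFG a s (cvS T) hs ha

theorem exact_cv (h : SQ.Exact) : RS.Exact := by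
  intro ε hε
  obtain ⟨c, K, hc, hK⟩ := h ε hε
  refine ⟨c, K, hc, fun k n m hk hn hm1 hm2 => ?_⟩
  obtain ⟨⟨G, hG, hGF⟩, hL⟩ := hK k n m hk hn hm1 hm2
  constructor
  · refine ⟨G, hG, fun F hF a s ha hs => ?_⟩
    refine (success_mono F _ _ (excl_sq F a s 0 1) _).trans ?_
    rw [success_sq, chain_cv]
    exact hGF F hF a s ha hs
  · refine le_trans (mul_le_mul_of_nonneg_left ?_ (Nat.cast_nonneg _)) hL
    have h3 : Nat.card {p : RS.Fml n k m × (Fin n → Bool) // RS.Dist p.1 ∧ RS.Sat p.1 p.2 ∧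
        ¬ (2 : ℝ) ^ ((1 - ε) * RS.sav n k m * n) * RS.guess n k m ≤
          RS.success p.1 (RS.Excl p.1 1 1 0 0) (RS.chain (List.finRange n))} ≤
        Nat.card {p : SQ.Fml n k m × (Fin n → Bool) // SQ.Dist p.1 ∧ SQ.Sat p.1 p.2 ∧
        ¬ (2 : ℝ) ^ ((1 - ε) * SQ.sav n k m * n) * SQ.guess n k m ≤
          SQ.success p.1 1 1 (SQ.chain (List.finRange n))} := by
      refine card_mono fun p hp => ⟨hp.1, hp.2.1, fun hle => hp.2.2 ?_⟩
      refine le_trans hle ?_
      rw [← chain_cv, ← success_sq]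
      exact success_mono p.1 _ _ (sq_excl p.1) _
    exact_mod_cast h3

/-- The statement. -/
def Main : Prop :=
  Upper ∧ Exact ∧ ∀ ε Γ : ℝ, 0 < ε → ∃ K : ℕ, 1 ≤ K ∧ ∀ k n m : ℕ, K ≤ k → K * k ≤ n →
    (m : ℝ) ≤ (2 : ℝ) ^ ((1 + 1 / (K : ℝ)) * k) * n → ∃ G : Set (Fml n k m),
    AlmostAll G ∧ (∀ F ∈ G, Drunken ε K F ∧ Local ε Γ F) ∧ Myopic ε K G

theorem main_cv (h1 : SQ.Upper) (h2 : SQ.Exact) (h3 : PS.Main) : RS.Main := by
  refine ⟨upper_cv h1, exact_cv h2, fun ε Γ hε => ?_⟩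
  obtain ⟨K, hK, h⟩ := h3 ε Γ hε
  refine ⟨K, hK, fun k n m hk hn hm => ?_⟩
  obtain ⟨G, hG1, hG2, hG3, hG4⟩ := h k n m hk hn hm
  exact ⟨G, ⟨hG1, hG2⟩, fun F hF => ⟨drunken_cv ε K (hK.trans hk) hK F (hG3 F hF).1,
    local_cv ε Γ F (hG3 F hF).2.1⟩, myopic_cv ε K (hK.trans hk) hK G hG4⟩

end Pool.Agent.H47.RS
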