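import Mathlib

/-!
Search in random and in planted k-CNFs (MP_c62aed_lc): the definitions used by the statement.
-/

set_option autoImplicit false

namespace Pool.Agent.H47.RS

open Finset

/-! ### Formulas -/

/-- A formula with `n` variables and `m` clauses of `k` literals. The literal `F c i = (x, s)` is
true when the variable `x` has the value `s`. -/
abbrev Fml (n k m : ℕ) : Type := Fin m → Fin k → Fin n × Bool

/-- The `k` variables of each clause are distinct. -/
def Dist {n k m : ℕ} (F : Fml n k m) : Prop := ∀ c, Function.Injective fun i => (F c i).1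

/-- The assignment `τ` satisfies `F`: every clause contains a literal which is true under `τ`. -/
def Sat {n k m : ℕ} (F : Fml n k m) (τ : Fin n → Bool) : Prop :=
  ∀ c, ∃ i, τ (F c i).1 = (F c i).2

/-- A partial assignment `L` is a finite set of pairs (variable, value). It satisfies `F` if every
clause contains a literal which is true under `L`. -/
def Done {n k m : ℕ} (F : Fml n k m) (L : Finset (Fin n × Bool)) : Prop :=
  ∀ c, ∃ i, F c i ∈ L

/-- `guess = 2 ^ (- n) + (1 - 2 ^ (- k)) ^ m` -/
noncomputable def guess (n k m : ℕ) : ℝ := (1 / 2 : ℝ) ^ n + (1 - (1 / 2 : ℝ) ^ k) ^ m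

/-- `sav = log (k (1 + Δ)) / k`, where `m = Δ 2 ^ k n` -/
noncomputable def sav (n k m : ℕ) : ℝ := Real.log (k * (1 + m / (2 ^ k * n))) / k

/-- `G` contains all but the fraction `1 / n` of the formulas, and `F` for all but the fraction
`1 / n` of the pairs `(F, σ)` such that `σ` satisfies `F`. -/
def AlmostAll {n k m : ℕ} (G : Set (Fml n k m)) : Prop :=
  (n : ℝ) * Nat.card {F : Fml n k m // Dist F ∧ F ∉ G} ≤ Nat.card {F : Fml n k m // Dist F} ∧
  (n : ℝ) * Nat.card {p : Fml n k m × (Fin n → Bool) // Dist p.1 ∧ Sat p.1 p.2 ∧ p.1 ∉ G} ≤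
    Nat.card {p : Fml n k m × (Fin n → Bool) // Dist p.1 ∧ Sat p.1 p.2}

/-! ### Resolution -/

/-- How a line of a derivation is obtained: from clauses of the formula (`ax`), from the line `j`
(`weak j`), or from the lines `j` and `l` by resolution on the variable `x` (`res x j l`). -/
inductive Rule (n : ℕ) : Type
  | ax : Rule n
  | weak (j : ℕ) : Rule n
  | res (x : Fin n) (j l : ℕ) : Rule n

/-- The lines are clauses, i.e. finite sets of literals. Line `i` is correct: it follows from at
most `a` clauses of `F`; or it contains the earlier line `j`; or it contains the resolvent on `x` of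
the earlier lines `j` (with `x`) and `l` (with `¬x`). -/
def Correct {n k m : ℕ} (F : Fml n k m) (a : ℕ) (line : ℕ → Finset (Fin n × Bool)) (i : ℕ) :
    Rule n → Prop
  | Rule.ax => ∃ C : Finset (Fin m), C.card ≤ a ∧ ∀ z : Fin n → Bool,
      (∀ c ∈ C, ∃ p, z (F c p).1 = (F c p).2) → ∃ x ∈ line i, z x.1 = x.2
  | Rule.weak j => j < i ∧ line j ⊆ line i
  | Rule.res x j l => j < i ∧ l < i ∧ line j ⊆ insert (x, true) (line i) ∧
      line l ⊆ insert (x, false) (line i)

/-- `Path rule r i l`: there is a path from the line `r` to the line `i` (from lines to the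
lines from which they are obtained) along which the variables of the list `l` are resolved. -/
inductive Path {n : ℕ} (rule : ℕ → Rule n) (r : ℕ) : ℕ → List (Fin n) → Prop
  | refl : Path rule r r []
  | weak {i j : ℕ} {l : List (Fin n)} : Path rule r i l → rule i = Rule.weak j →
      Path rule r j l
  | left {i j k : ℕ} {x : Fin n} {l : List (Fin n)} :
      Path rule r i l → rule i = Rule.res x j k → Path rule r j (x :: l)
  | right {i j k : ℕ} {x : Fin n} {l : List (Fin n)} :
      Path rule r i l → rule i = Rule.res x j k → Path rule r k (x :: l)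

/-- `L` is excluded: there is a resolution derivation (a DAG, with weakening) with at most `s`
lines from the clauses which follow from at most `a` clauses of `F`, in which on each path from the
line `r` at most `ρ n` variables are resolved more than `R` times, and all literals of the line `r`
are false under `L`. (`ρ = 1`: every derivation.) -/
def Excl {n k m : ℕ} (F : Fml n k m) (a s : ℕ) (R ρ : ℝ) (L : Finset (Fin n × Bool)) : Prop :=
  ∃ (S r : ℕ) (line : ℕ → Finset (Fin n × Bool)) (rule : ℕ → Rule n), S ≤ s ∧ r < S ∧
    (∀ i, i < S → Correct F a line i (rule i)) ∧ (∀ l ∈ line r, (l.1, !l.2) ∈ L) ∧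
    ∀ (i : ℕ) (l : List (Fin n)), Path rule r i l →
      ((univ.filter fun v => R < (l.count v : ℝ)).card : ℝ) ≤ ρ * n

/-! ### Drunken search -/

/-- A search tree: at a node the variable `v` is set, `f a b` is the subtree if the first value is
`a` and the value taken is `b`. -/
inductive Tree (n : ℕ) : Type
  | leaf : Tree n
  | node (v : Fin n) (f : Bool → Bool → Tree n) : Tree n

/-- The search succeeds from a node of the tree at which the partial assignment is `L`. At a leaf:
`L` satisfies `F`. At a node with a variable `v` which has no value: `ω L` is the first value of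
`v`, and the search may pass to the other value if `L` with the first value is excluded (`Ex`). If
`v` has a value, it is kept. -/
def Find {n k m : ℕ} (F : Fml n k m) (Ex : Finset (Fin n × Bool) → Prop)
    (ω : Finset (Fin n × Bool) → Bool) : Tree n → Finset (Fin n × Bool) → Prop
  | Tree.leaf, L => Done F L
  | Tree.node v f, L =>
    (∃ b, (v, b) ∈ L ∧ Find F Ex ω (f b b) L) ∨
    ((∀ b, (v, b) ∉ L) ∧ ∃ b, (ω L = b ∨ Ex (insert (v, !b) L)) ∧
      Find F Ex ω (f (ω L) b) (insert (v, b) L))

/-- The probability that the search with the tree `T` and random first values succeeds. -/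
noncomputable def success {n k m : ℕ} (F : Fml n k m) (Ex : Finset (Fin n × Bool) → Prop)
    (T : Tree n) : ℝ :=
  (Nat.card {ω : Finset (Fin n × Bool) → Bool // Find F Ex ω T ∅} : ℝ) /
    Nat.card (Finset (Fin n × Bool) → Bool)

/-- the tree which sets the variables of the list, one after the other -/
def chain {n : ℕ} : List (Fin n) → Tree n
  | [] => Tree.leaf
  | v :: l => Tree.node v fun _ _ => chain l

/-- For almost all `F` every search whose exclusions are derived with at most `s` lines from
consequences of at most `sav n` clauses succeeds with probability at most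
`s ^ (12 / 7) 2 ^ (C sav n) guess`. -/
def Upper : Prop :=
  ∃ C : ℝ, ∀ k n m : ℕ, 2 ≤ k → k ≤ n → ∃ G : Set (Fml n k m), AlmostAll G ∧
    ∀ F ∈ G, ∀ (a s : ℕ) (T : Tree n), 1 ≤ s → (a : ℝ) ≤ sav n k m * n →
      success F (Excl F a s 0 1) T ≤
        (s : ℝ) ^ (12 / 7 : ℝ) * (2 : ℝ) ^ (C * sav n k m * n) * guess n k m

/-- The order of the variables is fixed, `k ^ (- c) ≤ Δ ≤ 2 ^ (c k)`. For almost all `F` the search
whose exclusions are derived with at most `2 ^ (c sav n)` lines from consequences of at most `n / k`
clauses succeeds with probability at most `2 ^ ((1 + ε) sav n) guess`. For almost all pairs `(F, σ)`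
the search whose exclusions are violated clauses succeeds with probability at least
`2 ^ ((1 - ε) sav n) guess`. -/
def Exact : Prop :=
  ∀ ε : ℝ, 0 < ε → ∃ (c : ℝ) (K : ℕ), 0 < c ∧ ∀ k n m : ℕ, K ≤ k → K * k ≤ n →
    (2 : ℝ) ^ k * n ≤ (k : ℝ) ^ c * m → (m : ℝ) ≤ (2 : ℝ) ^ ((1 + c) * k) * n →
    (∃ G : Set (Fml n k m), AlmostAll G ∧ ∀ F ∈ G, ∀ a s : ℕ, a ≤ n / k →
      (s : ℝ) ≤ (2 : ℝ) ^ (c * sav n k m * n) →
      success F (Excl F a s 0 1) (chain (List.finRange n)) ≤
        (2 : ℝ) ^ ((1 + ε) * sav n k m * n) * guess n k m) ∧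
    (n : ℝ) * Nat.card {p : Fml n k m × (Fin n → Bool) // Dist p.1 ∧ Sat p.1 p.2 ∧
      ¬ (2 : ℝ) ^ ((1 - ε) * sav n k m * n) * guess n k m ≤
        success p.1 (Excl p.1 1 1 0 0) (chain (List.finRange n))} ≤
      Nat.card {p : Fml n k m × (Fin n → Bool) // Dist p.1 ∧ Sat p.1 p.2}

/-- `cost = min (s 2 ^ (ρ n)) (s ^ (12 / 7))` -/
noncomputable def cost (n s : ℕ) (ρ : ℝ) : ℝ :=
  min (s * (2 : ℝ) ^ (ρ * n)) ((s : ℝ) ^ (12 / 7 : ℝ))

/-- For every tree the probability that the search succeeds is at most `2 ^ (ε n) cost guess`, if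
few variables are resolved more than `k / K` times. -/
def Drunken {n k m : ℕ} (ε : ℝ) (K : ℕ) (F : Fml n k m) : Prop :=
  ∀ (ρ : ℝ) (s : ℕ), 0 ≤ ρ → 1 ≤ s → ∀ T : Tree n,
    success F (Excl F (n / k) s (k / K) ρ) T ≤ (2 : ℝ) ^ (ε * n) * cost n s ρ * guess n k m

/-! ### Myopic search -/

/-- A protocol: it reads the signs of the clause `c` (and goes on with `f x` if they are `x`), or
sets the variable `v`, with first value `a` (and goes on with `f b` if the value is `b`). -/
inductive Prot (n k m : ℕ) : Type
  | leaf : Prot n k m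
  | read (c : Fin m) (f : (Fin k → Bool) → Prot n k m) : Prot n k m
  | node (v : Fin n) (a : Bool) (f : Bool → Prot n k m) : Prot n k m

/-- On each path of the protocol at most `q` clauses are read. -/
def Reads {n k m : ℕ} : Prot n k m → ℕ → Prop
  | Prot.leaf, _ => True
  | Prot.read _ f, q => 1 ≤ q ∧ ∀ x, Reads (f x) (q - 1)
  | Prot.node _ _ f, q => ∀ b, Reads (f b) q

/-- The search with a protocol succeeds, as `Find`; the first value of `v` is `a`. -/
def FindP {n k m : ℕ} (F : Fml n k m) (Ex : Finset (Fin n × Bool) → Prop) :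
    Prot n k m → Finset (Fin n × Bool) → Prop
  | Prot.leaf, L => Done F L
  | Prot.read c f, L => FindP F Ex (f fun i => (F c i).2) L
  | Prot.node v a f, L => ∃ b, (v, !b) ∉ L ∧ ((v, b) ∈ L ∨ a = b ∨ Ex (insert (v, !b) L)) ∧
      FindP F Ex (f b) (insert (v, b) L)

/-- the formula without the signs -/
def vars {n k m : ℕ} (F : Fml n k m) : Fin m → Fin k → Fin n := fun c i => (F c i).1

/-- For every protocol which may depend on the formula without the signs and reads at most `q`
clauses, the fraction of the formulas `F` for which `F ∈ G` and the search succeeds is at most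
`2 ^ (ε n) cost guess (1 - 2 ^ (- k)) ^ (- q)`, and the same holds for the pairs `(F, σ)` such that
`σ` satisfies `F`. -/
def Myopic {n k m : ℕ} (ε : ℝ) (K : ℕ) (G : Set (Fml n k m)) : Prop :=
  ∀ (ρ : ℝ) (s q : ℕ), 0 ≤ ρ → 1 ≤ s → ∀ P : (Fin m → Fin k → Fin n) → Prot n k m,
    (∀ g, Reads (P g) q) →
    (Nat.card {F : Fml n k m // Dist F ∧ F ∈ G ∧
      FindP F (Excl F (n / k) s (k / K) ρ) (P (vars F)) ∅} : ℝ) * (1 - (1 / 2 : ℝ) ^ k) ^ q ≤
      (2 : ℝ) ^ (ε * n) * cost n s ρ * guess n k m * Nat.card {F : Fml n k m // Dist F} ∧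
    (Nat.card {p : Fml n k m × (Fin n → Bool) // Dist p.1 ∧ Sat p.1 p.2 ∧ p.1 ∈ G ∧
      FindP p.1 (Excl p.1 (n / k) s (k / K) ρ) (P (vars p.1)) ∅} : ℝ) *
        (1 - (1 / 2 : ℝ) ^ k) ^ q ≤
      (2 : ℝ) ^ (ε * n) * cost n s ρ * guess n k m *
        Nat.card {p : Fml n k m × (Fin n → Bool) // Dist p.1 ∧ Sat p.1 p.2}

/-! ### Local search -/

open Classical in
/-- the clauses which are violated by `y` -/
noncomputable def vio {n k m : ℕ} (F : Fml n k m) (y : Fin n → Bool) : Finset (Fin m) :=
  univ.filter fun c => ∀ i, y (F c i).1 ≠ (F c i).2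

/-- `y` with the value of `v` changed -/
def flp {n : ℕ} (y : Fin n → Bool) (v : Fin n) : Fin n → Bool := Function.update y v (!y v)

/-- A policy. Given the assignments so far (the current one is the first in the list) it either
starts again (`none`) or gives the probabilities with which the clauses are chosen. -/
abbrev Policy (n m : ℕ) : Type := List (Fin n → Bool) → Option (Fin m → ℝ)

/-- Only clauses which are violated by the current assignment `y` are chosen, each of them with
probability at most `Γ` divided by the number of all clauses violated by `y`. -/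
def Spread {n k m : ℕ} (F : Fml n k m) (Γ : ℝ) (pol : Policy n m) : Prop :=
  ∀ (y : Fin n → Bool) (h : List (Fin n → Bool)) (q : Fin m → ℝ), ¬ Sat F y →
    pol (y :: h) = some q → ∑ c, q c = 1 ∧ ∀ c, 0 ≤ q c ∧ (c ∉ vio F y → q c = 0) ∧
      q c * (vio F y).card ≤ Γ

open Classical in
/-- The probability that the local search with the policy `pol` finds a satisfying assignment in at
most `t` steps, if `h` are the former assignments and `y` is the current one. In a step the value of
a random variable of the chosen clause is changed, or the current assignment is replaced by a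
uniformly random one. -/
noncomputable def run {n k m : ℕ} (F : Fml n k m) (pol : Policy n m) :
    ℕ → List (Fin n → Bool) → (Fin n → Bool) → ℝ
  | 0, _, y => if Sat F y then 1 else 0
  | t + 1, h, y => if Sat F y then 1 else
    match pol (y :: h) with
    | none => (∑ y', run F pol t (y :: h) y') / 2 ^ n
    | some q => ∑ c, q c * ((∑ i, run F pol t (y :: h) (flp y (F c i).1)) / k)

/-- Local search which starts with a uniformly random assignment: the probability that a satisfying
assignment is found in at most `t` steps is at most `2 ^ (ε n) (t + 1) guess`. -/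
def Local {n k m : ℕ} (ε Γ : ℝ) (F : Fml n k m) : Prop :=
  ∀ pol : Policy n m, Spread F Γ pol → ∀ t : ℕ,
    (∑ y, run F pol t [] y) / 2 ^ n ≤ (2 : ℝ) ^ (ε * n) * (t + 1) * guess n k m

end Pool.Agent.H47.RS
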